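import Mathlib

/-!
The free product of three groups of order two inside the modular group, acting on binary forms.
-/

set_option autoImplicit false
open Matrix

namespace Pool.Agent.Q155.Cox

/-- Coxeter matrix with all off-diagonal entries infinite -/
def MM : CoxeterMatrix (Fin 3) where
  M := Matrix.of fun i j => if i = j then 1 else 0
  isSymm := by
    ext i j
    simp [eq_comm]
  diagonal i := by simp
  off_diagonal i j h := by simp [h]

/-- integer matrices of the three half turns -/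
def A : Fin 3 → Matrix (Fin 3) (Fin 3) ℤ :=
  ![!![1, -2, 1; 2, -3, 1; 4, -4, 1], !![0, 0, 1; 0, -1, 0; 1, 0, 0],
    !![1, 2, 1; -2, -3, -1; 4, 4, 1]]

theorem A_sq (k : Fin 3) : A k * A k = 1 := by
  fin_cases k <;> decide

/-- as units -/
def fA (k : Fin 3) : (Matrix (Fin 3) (Fin 3) ℤ)ˣ := ⟨A k, A k, A_sq k, A_sq k⟩

theorem fA_lift : MM.IsLiftable fA := by
  intro i j
  by_cases h : i = j
  · subst h
    have : MM i i = 1 := MM.diagonal i
    rw [this, pow_one]
    ext1
    exact A_sq i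
  · have : MM i j = 0 := by
      change (if i = j then 1 else 0) = 0
      rw [if_neg h]
    rw [this, pow_zero]

/-- the Coxeter system -/
def cs : CoxeterSystem MM MM.Group := MM.toCoxeterSystem

/-- the integral representation -/
noncomputable def rZ : MM.Group →* (Matrix (Fin 3) (Fin 3) ℤ)ˣ := cs.lift ⟨fA, fA_lift⟩

theorem rZ_simple (k : Fin 3) : rZ (cs.simple k) = fA k := cs.lift_apply_simple fA_lift k

/-- the real representation -/
noncomputable def rR : MM.Group →* (Matrix (Fin 3) (Fin 3) ℝ)ˣ :=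
  (Units.map ((Int.castRingHom ℝ).mapMatrix : Matrix (Fin 3) (Fin 3) ℤ →+*
    Matrix (Fin 3) (Fin 3) ℝ).toMonoidHom).comp rZ

theorem rR_val (w : MM.Group) (i j : Fin 3) :
    (rR w).val i j = (((rZ w).val i j : ℤ) : ℝ) := rfl

theorem rR_val' (w : MM.Group) :
    (rR w).val = ((Int.castRingHom ℝ).mapMatrix : Matrix (Fin 3) (Fin 3) ℤ →+*
    Matrix (Fin 3) (Fin 3) ℝ) (rZ w).val := rfl

theorem rR_simple (k : Fin 3) : (rR (cs.simple k)).val = (A k).map (Int.cast : ℤ → ℝ) := by
  rw [rR_val', rZ_simple]; rfl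

theorem rR_det (w : MM.Group) : (rR w).val.det = 1 ∨ (rR w).val.det = -1 := by
  have h1 : IsUnit (rZ w).val.det := (Matrix.isUnit_iff_isUnit_det _).1 (rZ w).isUnit
  have h2 : (rR w).val.det = (((rZ w).val.det : ℤ) : ℝ) := by
    rw [rR_val', ← RingHom.map_det]; rfl
  rcases Int.isUnit_iff.1 h1 with h | h
  · left; rw [h2, h]; simp
  · right; rw [h2, h]; simp

theorem rR_discrete (w : MM.Group)
    (h : ∀ i j, |(rR w).val i j - (1 : Matrix (Fin 3) (Fin 3) ℝ) i j| < 1) : rR w = 1 := by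
  ext i j
  have h1 := h i j
  rw [rR_val] at h1 ⊢
  have h2 : (1 : Matrix (Fin 3) (Fin 3) ℝ) i j =
      (((1 : Matrix (Fin 3) (Fin 3) ℤ) i j : ℤ) : ℝ) := by
    by_cases hij : i = j
    · subst hij; simp
    · simp [hij]
  rw [h2] at h1
  have h3 : |(rZ w).val i j - (1 : Matrix (Fin 3) (Fin 3) ℤ) i j| < 1 := by
    exact_mod_cast h1
  have h4 := Int.abs_lt_one_iff.1 h3
  have h5 : (rZ w).val i j = (1 : Matrix (Fin 3) (Fin 3) ℤ) i j := by omega
  rw [h5, ← h2]
  rfl

/-- the cone of positive definite binary forms -/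
def C : Set (Fin 3 → ℝ) := {p | 0 < p 0 ∧ p 1 ^ 2 < p 0 * p 2}

/-- the action -/
noncomputable def act (w : MM.Group) (p : Fin 3 → ℝ) : Fin 3 → ℝ := (rR w).val *ᵥ p

theorem act_one (p : Fin 3 → ℝ) : act 1 p = p := by
  unfold act; rw [map_one, Units.val_one, Matrix.one_mulVec]

theorem act_mul (w w' : MM.Group) (p : Fin 3 → ℝ) : act (w * w') p = act w (act w' p) := by
  unfold act; rw [map_mul, Units.val_mul, Matrix.mulVec_mulVec]

theorem act_s0 (p : Fin 3 → ℝ) : act (cs.simple 0) p =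
    ![p 0 - 2 * p 1 + p 2, 2 * p 0 - 3 * p 1 + p 2, 4 * p 0 - 4 * p 1 + p 2] := by
  unfold act
  rw [rR_simple]
  ext i
  fin_cases i <;> simp [A, Matrix.mulVec, dotProduct, Fin.sum_univ_three] <;> ring

theorem act_s1 (p : Fin 3 → ℝ) : act (cs.simple 1) p = ![p 2, -p 1, p 0] := by
  unfold act
  rw [rR_simple]
  ext i
  fin_cases i <;> simp [A, Matrix.mulVec, dotProduct, Fin.sum_univ_three]

theorem act_s2 (p : Fin 3 → ℝ) : act (cs.simple 2) p =
    ![p 0 + 2 * p 1 + p 2, -2 * p 0 - 3 * p 1 - p 2, 4 * p 0 + 4 * p 1 + p 2] := by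
  unfold act
  rw [rR_simple]
  ext i
  fin_cases i <;> simp [A, Matrix.mulVec, dotProduct, Fin.sum_univ_three] <;> ring

theorem C_two {p : Fin 3 → ℝ} (hp : p ∈ C) : 0 < p 2 := by
  obtain ⟨h1, h2⟩ := hp
  have : 0 < p 0 * p 2 := lt_of_le_of_lt (sq_nonneg _) h2
  exact (pos_iff_pos_of_mul_pos this).1 h1

/-- values of the form are positive -/
theorem form_pos {p : Fin 3 → ℝ} (hp : p ∈ C) (u v : ℝ) (h : u ≠ 0 ∨ v ≠ 0) :
    0 < p 0 * u ^ 2 + 2 * p 1 * u * v + p 2 * v ^ 2 := by
  obtain ⟨h1, h2⟩ := hp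
  have h3 : p 0 * (p 0 * u ^ 2 + 2 * p 1 * u * v + p 2 * v ^ 2) =
    (p 0 * u + p 1 * v) ^ 2 + (p 0 * p 2 - p 1 ^ 2) * v ^ 2 := by ring
  have h4 : 0 < p 0 * (p 0 * u ^ 2 + 2 * p 1 * u * v + p 2 * v ^ 2) := by
    rw [h3]
    by_cases hv : v = 0
    · subst hv
      have hu : u ≠ 0 := by
        rcases h with h | h
        · exact h
        · exact absurd rfl h
      have : 0 < (p 0 * u + p 1 * 0) ^ 2 := by
        rw [mul_zero, add_zero]; positivity
      simpa using this
    · have : 0 < (p 0 * p 2 - p 1 ^ 2) * v ^ 2 := by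
        have : 0 < p 0 * p 2 - p 1 ^ 2 := by linarith
        positivity
      positivity
  exact (pos_iff_pos_of_mul_pos h4).1 h1

theorem act_disc (w : MM.Group) (p : Fin 3 → ℝ) :
    (act w p) 0 * (act w p) 2 - (act w p) 1 ^ 2 = p 0 * p 2 - p 1 ^ 2 := by
  induction w using cs.simple_induction_left generalizing p with
  | one => rw [act_one]
  | mul_simple_left w i ih =>
    rw [act_mul, ← ih p]
    fin_cases i
    · simp [act_s0]; ring
    · simp [act_s1]; ring
    · simp [act_s2]; ring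

theorem act_C (w : MM.Group) (p : Fin 3 → ℝ) (hp : p ∈ C) : act w p ∈ C := by
  induction w using cs.simple_induction_left generalizing p with
  | one => rw [act_one]; exact hp
  | mul_simple_left w i ih =>
    rw [act_mul]
    have h1 := ih p hp
    set q := act w p
    have hd := act_disc (cs.simple i) q
    have h2 : 0 < q 0 * q 2 - q 1 ^ 2 := by have := h1.2; linarith
    refine ⟨?_, by linarith⟩
    fin_cases i
    · have := form_pos h1 1 (-1) (Or.inl one_ne_zero)
      simp [act_s0]; linarith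
    · have := C_two h1
      simpa [act_s1] using this
    · have := form_pos h1 1 1 (Or.inl one_ne_zero)
      simp [act_s2]; linarith

/-- the three half planes -/
def X : Fin 3 → Set (Fin 3 → ℝ) :=
  ![{p | p 0 - p 1 < 0}, {p | p 2 - p 0 < 0}, {p | p 0 + p 1 < 0}]

/-- the complementary half planes -/
def Y : Fin 3 → Set (Fin 3 → ℝ) :=
  ![{p | 0 < p 0 - p 1}, {p | 0 < p 2 - p 0}, {p | 0 < p 0 + p 1}]

theorem act_YX (i : Fin 3) (p : Fin 3 → ℝ) (hp : p ∈ Y i) : act (cs.simple i) p ∈ X i := by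
  fin_cases i
  · change 0 < p 0 - p 1 at hp
    change (act (cs.simple 0) p) 0 - (act (cs.simple 0) p) 1 < 0
    simp [act_s0]; linarith
  · change 0 < p 2 - p 0 at hp
    change (act (cs.simple 1) p) 2 - (act (cs.simple 1) p) 0 < 0
    simp [act_s1]; linarith
  · change 0 < p 0 + p 1 at hp
    change (act (cs.simple 2) p) 0 + (act (cs.simple 2) p) 1 < 0
    simp [act_s2]; linarith

theorem X_sub_Y (i j : Fin 3) (hij : i ≠ j) (p : Fin 3 → ℝ) (hC : p ∈ C) (hp : p ∈ X j) :
    p ∈ Y i := by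
  obtain ⟨h1, h2⟩ := hC
  have h3 := C_two ⟨h1, h2⟩
  fin_cases i <;> fin_cases j
  · exact absurd rfl hij
  · change p 2 - p 0 < 0 at hp
    change 0 < p 0 - p 1
    nlinarith
  · change p 0 + p 1 < 0 at hp
    change 0 < p 0 - p 1
    linarith
  · change p 0 - p 1 < 0 at hp
    change 0 < p 2 - p 0
    nlinarith
  · exact absurd rfl hij
  · change p 0 + p 1 < 0 at hp
    change 0 < p 2 - p 0
    nlinarith
  · change p 0 - p 1 < 0 at hp
    change 0 < p 0 + p 1
    linarith
  · change p 2 - p 0 < 0 at hp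
    change 0 < p 0 + p 1
    nlinarith
  · exact absurd rfl hij

theorem ping (n : ℕ) : ∀ w : MM.Group, cs.length w = n → w ≠ 1 →
    ∃ i, cs.IsLeftDescent w i ∧ act w ![1, 0, 4] ∈ X i := by
  induction n using Nat.strong_induction_on with
  | _ n ih =>
    intro w hw hne
    obtain ⟨i, hi⟩ := cs.exists_leftDescent_of_ne_one hne
    refine ⟨i, hi, ?_⟩
    have h1 : w = cs.simple i * (cs.simple i * w) := by
      rw [cs.simple_mul_simple_cancel_left]
    set w' := cs.simple i * w with hw'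
    rw [h1, act_mul]
    apply act_YX
    have hbase : (![1, 0, 4] : Fin 3 → ℝ) ∈ C := by
      refine ⟨?_, ?_⟩
      · simp
      · simp
    by_cases h0 : w' = 1
    · rw [h0, act_one]
      fin_cases i
      · change (0 : ℝ) < (![1, 0, 4] : Fin 3 → ℝ) 0 - (![1, 0, 4] : Fin 3 → ℝ) 1
        simp
      · change (0 : ℝ) < (![1, 0, 4] : Fin 3 → ℝ) 2 - (![1, 0, 4] : Fin 3 → ℝ) 0
        simp
      · change (0 : ℝ) < (![1, 0, 4] : Fin 3 → ℝ) 0 + (![1, 0, 4] : Fin 3 → ℝ) 1
        simp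
    · have hlt : cs.length w' < n := by rw [← hw]; exact hi
      obtain ⟨j, hj, hjX⟩ := ih _ hlt w' rfl h0
      have hij : i ≠ j := by
        rintro rfl
        have h2 : cs.length (cs.simple i * w') < cs.length w' := hj
        rw [← h1] at h2
        have h3 : cs.length w' < cs.length w := hi
        omega
      exact X_sub_Y i j hij _ (act_C w' _ hbase) hjX

theorem rR_inj : Function.Injective rR := by
  rw [injective_iff_map_eq_one]
  intro w hw
  by_contra hne
  obtain ⟨i, -, hi⟩ := ping _ w rfl hne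
  have h1 : act w ![1, 0, 4] = ![1, 0, 4] := by
    unfold act; rw [hw, Units.val_one, Matrix.one_mulVec]
  rw [h1] at hi
  fin_cases i
  · change (![1, 0, 4] : Fin 3 → ℝ) 0 - (![1, 0, 4] : Fin 3 → ℝ) 1 < 0 at hi
    simp at hi
    try linarith
  · change (![1, 0, 4] : Fin 3 → ℝ) 2 - (![1, 0, 4] : Fin 3 → ℝ) 0 < 0 at hi
    simp at hi
    try linarith
  · change (![1, 0, 4] : Fin 3 → ℝ) 0 + (![1, 0, 4] : Fin 3 → ℝ) 1 < 0 at hi
    simp at hi
    try linarith

end Pool.Agent.Q155.Cox
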