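import Pool.Agent.Q155.Cox.Grp

/-!
Reduction theory: every orbit meets the set `F`.
-/

set_option autoImplicit false
open Matrix

namespace Pool.Agent.Q155.Cox

/-- a set meeting every orbit -/
def F : Set (Fin 3 → ℝ) :=
  {p | p ∈ C ∧ |p 1| ≤ 3 / 2 * p 0 ∧ p 0 ^ 2 ≤ 4 * (p 0 * p 2 - p 1 ^ 2)}

theorem act_add (w : MM.Group) (p q : Fin 3 → ℝ) : act w (p + q) = act w p + act w q :=
  Matrix.mulVec_add _ _ _

theorem act_smul (w : MM.Group) (c : ℝ) (p : Fin 3 → ℝ) : act w (c • p) = c • act w p :=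
  Matrix.mulVec_smul _ _ _

theorem act_I (w : MM.Group) : 1 ≤ (act w ![1, 0, 1]) 0 := by
  have h1 : (![1, 0, 1] : Fin 3 → ℝ) ∈ C := by
    refine ⟨?_, ?_⟩
    · simp
    · simp
  have h2 := (act_C w _ h1).1
  have h3 : (act w ![1, 0, 1]) 0 = (((rZ w).val 0 0 + (rZ w).val 0 2 : ℤ) : ℝ) := by
    unfold act
    simp [Matrix.mulVec, dotProduct, Fin.sum_univ_three, rR_val]
  rw [h3] at h2 ⊢
  have h4 : 0 < (rZ w).val 0 0 + (rZ w).val 0 2 := by exact_mod_cast h2
  have h5 : 1 ≤ (rZ w).val 0 0 + (rZ w).val 0 2 := h4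
  exact_mod_cast h5

theorem lower (p : Fin 3 → ℝ) (hp : p ∈ C) : ∃ l : ℝ, 0 < l ∧ ∀ w, l < (act w p) 0 := by
  have h2 := C_two hp
  obtain ⟨h0, h1⟩ := hp
  set l := (p 0 * p 2 - p 1 ^ 2) / (p 0 + p 2) with hl
  have hs : 0 < p 0 + p 2 := by linarith
  have hl0 : 0 < l := div_pos (by linarith) hs
  have hl1 : l * (p 0 + p 2) = p 0 * p 2 - p 1 ^ 2 := by rw [hl]; field_simp
  refine ⟨l, hl0, fun w => ?_⟩
  have hq : (p - l • ![1, 0, 1]) ∈ C := by
    refine ⟨?_, ?_⟩
    · have : 0 < (p 0 - l) * (p 0 + p 2) := by nlinarith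
      have := (pos_iff_pos_of_mul_pos this).2 hs
      simpa using this
    · have : p 1 ^ 2 < (p 0 - l) * (p 2 - l) := by nlinarith
      simpa using this
  have h3 := (act_C w _ hq).1
  have h4 := act_I w
  have h5 : act w p = act w (p - l • ![1, 0, 1]) + l • act w ![1, 0, 1] := by
    rw [← act_smul, ← act_add, sub_add_cancel]
  rw [h5]
  simp only [Pi.add_apply, Pi.smul_apply, smul_eq_mul]
  nlinarith

/-- the translation -/
noncomputable def tr : MM.Group := cs.simple 0 * (cs.simple 1 * cs.simple 2)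

theorem act_tr (p : Fin 3 → ℝ) : act tr p = ![p 0, p 1 + 3 * p 0, 9 * p 0 + 6 * p 1 + p 2] := by
  unfold tr
  rw [act_mul, act_mul, act_s2, act_s1, act_s0]
  ext i
  fin_cases i <;> simp <;> ring

theorem act_tr_inv (p : Fin 3 → ℝ) : act tr⁻¹ p = ![p 0, p 1 - 3 * p 0, 9 * p 0 - 6 * p 1 + p 2] := by
  have h1 : act tr (![p 0, p 1 - 3 * p 0, 9 * p 0 - 6 * p 1 + p 2]) = p := by
    rw [act_tr]
    ext i
    fin_cases i <;> simp; ring
  have h2 : act tr⁻¹ (act tr (![p 0, p 1 - 3 * p 0, 9 * p 0 - 6 * p 1 + p 2])) = act tr⁻¹ p := by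
    rw [h1]
  rw [← act_mul, inv_mul_cancel, act_one] at h2
  exact h2.symm

theorem act_tr_pow (n : ℤ) (p : Fin 3 → ℝ) :
    (act (tr ^ n) p) 0 = p 0 ∧ (act (tr ^ n) p) 1 = p 1 + 3 * n * p 0 := by
  induction n using Int.induction_on generalizing p with
  | zero => simp [act_one]
  | succ i ih =>
    rw [_root_.zpow_add_one, act_mul]
    have h := ih (act tr p)
    rw [act_tr] at h ⊢
    refine ⟨by simpa using h.1, ?_⟩
    rw [h.2]
    simp
    ring
  | pred i ih =>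
    rw [_root_.zpow_sub_one, act_mul]
    have h := ih (act tr⁻¹ p)
    rw [act_tr_inv] at h ⊢
    refine ⟨by simpa using h.1, ?_⟩
    rw [h.2]
    simp
    ring

theorem reduce (p : Fin 3 → ℝ) (hp : p ∈ C) : ∃ w, act w p ∈ F := by
  obtain ⟨l, hl, hlow⟩ := lower p hp
  set S : Set ℝ := Set.range fun w => (act w p) 0 with hS
  have hbdd : BddBelow S := ⟨l, by rintro _ ⟨w, rfl⟩; exact (hlow w).le⟩
  have hne : S.Nonempty := Set.range_nonempty _
  have hs : l ≤ sInf S := le_csInf hne (by rintro _ ⟨w, rfl⟩; exact (hlow w).le)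
  obtain ⟨_, ⟨w, rfl⟩, hw⟩ := exists_lt_of_csInf_lt hne
    (show sInf S < 2 * sInf S by linarith)
  simp only at hw
  have hle : ∀ v, sInf S ≤ (act v p) 0 := fun v => csInf_le hbdd ⟨v, rfl⟩
  set q := act w p with hq
  have hqC : q ∈ C := act_C w p hp
  set n : ℤ := round (-(q 1) / (3 * q 0)) with hn
  have hn1 := abs_sub_round (-(q 1) / (3 * q 0))
  rw [← hn] at hn1
  set r := act (tr ^ n) q with hr
  have hrC : r ∈ C := act_C _ q hqC
  obtain ⟨hr0, hr1⟩ := act_tr_pow n q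
  rw [← hr] at hr0 hr1
  have hq0 : 0 < q 0 := hqC.1
  have hr1' : |r 1| ≤ 3 / 2 * r 0 := by
    rw [hr1, hr0]
    have e : q 1 + 3 * n * q 0 = -(3 * q 0) * (-(q 1) / (3 * q 0) - n) := by
      field_simp; ring
    rw [e, abs_mul, abs_neg, abs_of_pos (by positivity)]
    nlinarith
  refine ⟨tr ^ n * w, ?_⟩
  rw [act_mul, ← hq, ← hr]
  refine ⟨hrC, hr1', ?_⟩
  by_contra hcon
  push Not at hcon
  have hr0p : 0 < r 0 := hrC.1
  have hrs : r 0 < 2 * sInf S := by rw [hr0]; exact hw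
  have hact : ∀ v, act v r = act (v * (tr ^ n * w)) p := by
    intro v; rw [act_mul, act_mul]
  rw [abs_le] at hr1'
  -- choose the half turn
  have key : ∃ v, r 0 * (act v r) 0 < r 0 * (r 0 / 2) := by
    by_cases c1 : r 1 < -(r 0 / 2)
    · refine ⟨cs.simple 2, ?_⟩
      have : (act (cs.simple 2) r) 0 = r 0 + 2 * r 1 + r 2 := by simp [act_s2]
      rw [this]
      have h1 : (r 0 + r 1) ^ 2 ≤ (r 0 / 2) ^ 2 := by
        apply sq_le_sq'
        · linarith
        · linarith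
      nlinarith
    · push Not at c1
      by_cases c2 : r 0 / 2 < r 1
      · refine ⟨cs.simple 0, ?_⟩
        have : (act (cs.simple 0) r) 0 = r 0 - 2 * r 1 + r 2 := by simp [act_s0]
        rw [this]
        have h1 : (r 0 - r 1) ^ 2 ≤ (r 0 / 2) ^ 2 := by
          apply sq_le_sq'
          · linarith
          · linarith
        nlinarith
      · push Not at c2
        refine ⟨cs.simple 1, ?_⟩
        have : (act (cs.simple 1) r) 0 = r 2 := by simp [act_s1]
        rw [this]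
        have h1 : (r 1) ^ 2 ≤ (r 0 / 2) ^ 2 := by
          apply sq_le_sq' c1 c2
        nlinarith
  obtain ⟨v, hv⟩ := key
  have h1 : (act v r) 0 < r 0 / 2 := lt_of_mul_lt_mul_left hv hr0p.le
  have h2 := hle (v * (tr ^ n * w))
  rw [← hact] at h2
  linarith

end Pool.Agent.Q155.Cox
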