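import Pool.Agent.Q155.Cox.Red

/-!
Hilbert metric on the cone of positive definite forms and the covering estimate.
-/

set_option autoImplicit false
open Matrix

namespace Pool.Agent.Q155.Cox

/-- the closed cone -/
def K : Set (Fin 3 → ℝ) := {p | 0 ≤ p 0 ∧ 0 ≤ p 2 ∧ p 1 ^ 2 ≤ p 0 * p 2}

theorem K_closed : IsClosed K := by
  have e : K = {p | 0 ≤ p 0} ∩ ({p | 0 ≤ p 2} ∩ {p | p 1 ^ 2 ≤ p 0 * p 2}) := rfl
  rw [e]
  refine IsClosed.inter ?_ (IsClosed.inter ?_ ?_)
  · exact isClosed_le continuous_const (by fun_prop)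
  · exact isClosed_le continuous_const (by fun_prop)
  · exact isClosed_le (by fun_prop) (by fun_prop)

theorem C_sub_K : C ⊆ K := fun _ hp => ⟨hp.1.le, (C_two hp).le, hp.2.le⟩

theorem K_sub : K ⊆ closure C := by
  intro p hp
  obtain ⟨h0, h2, h1⟩ := hp
  have hlim : Filter.Tendsto (fun n : ℕ => p + (1 / ((n : ℝ) + 1)) • (![1, 0, 1] : Fin 3 → ℝ))
      Filter.atTop (nhds (p + (0 : ℝ) • (![1, 0, 1] : Fin 3 → ℝ))) := by
    apply tendsto_const_nhds.add
    exact tendsto_one_div_add_atTop_nhds_zero_nat.smul_const _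
  rw [zero_smul, add_zero] at hlim
  refine mem_closure_of_tendsto hlim (Filter.Eventually.of_forall fun n => ?_)
  have hn : 0 < 1 / ((n : ℝ) + 1) := by positivity
  set e := 1 / ((n : ℝ) + 1)
  refine ⟨?_, ?_⟩
  · have : 0 < p 0 + e := by linarith
    simpa using this
  · have : p 1 ^ 2 < (p 0 + e) * (p 2 + e) := by nlinarith
    simpa using this

theorem closure_C : closure C = K :=
  Set.Subset.antisymm (closure_minimal C_sub_K K_closed) K_sub

theorem C_open : IsOpen C := by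
  have e : C = {p | 0 < p 0} ∩ {p | p 1 ^ 2 < p 0 * p 2} := rfl
  rw [e]
  refine IsOpen.inter ?_ ?_
  · exact isOpen_lt continuous_const (by fun_prop)
  · exact isOpen_lt (by fun_prop) (by fun_prop)

theorem C_convex : Convex ℝ C := by
  intro p hp q hq s t hs ht hst
  have hp2 := C_two hp
  have hq2 := C_two hq
  obtain ⟨hp0, hp1⟩ := hp
  obtain ⟨hq0, hq1⟩ := hq
  have key : (s * p 1 + t * q 1) ^ 2 < (s * p 0 + t * q 0) * (s * p 2 + t * q 2) := by
    have h1 : 2 * (p 1 * q 1) ≤ p 0 * q 2 + q 0 * p 2 := by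
      have h2 : (2 * (p 1 * q 1)) ^ 2 ≤ (p 0 * q 2 + q 0 * p 2) ^ 2 := by
        have a1 : p 1 ^ 2 * q 1 ^ 2 ≤ (p 0 * p 2) * (q 0 * q 2) := by
          apply mul_le_mul hp1.le hq1.le (sq_nonneg _) (by positivity)
        nlinarith [sq_nonneg (p 0 * q 2 - q 0 * p 2)]
      exact abs_le_of_sq_le_sq' h2 (by positivity) |>.2
    rcases hs.lt_or_eq with hs' | hs'
    · have a2 : s ^ 2 * p 1 ^ 2 < s ^ 2 * (p 0 * p 2) := by
        apply mul_lt_mul_of_pos_left hp1 (by positivity)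
      have a3 : t ^ 2 * q 1 ^ 2 ≤ t ^ 2 * (q 0 * q 2) := by
        apply mul_le_mul_of_nonneg_left hq1.le (by positivity)
      have a4 : s * t * (2 * (p 1 * q 1)) ≤ s * t * (p 0 * q 2 + q 0 * p 2) :=
        mul_le_mul_of_nonneg_left h1 (by positivity)
      nlinarith
    · have ht1 : t = 1 := by linarith
      rw [← hs', ht1]
      linarith
  have k0 : 0 < s * p 0 + t * q 0 := by
    rcases hs.lt_or_eq with hs' | hs'
    · positivity
    · have ht1 : t = 1 := by linarith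
      rw [← hs', ht1]; linarith
  exact ⟨by simpa using k0, by simpa using key⟩

theorem C_proper (x v : Fin 3 → ℝ) (hv : v ≠ 0) : ∃ t : ℝ, x + t • v ∉ closure C := by
  rw [closure_C]
  by_contra hcon
  push Not at hcon
  have h0 : v 0 = 0 := by
    by_contra h
    have := (hcon (-(x 0 + 1) / v 0)).1
    simp only [Pi.add_apply, Pi.smul_apply, smul_eq_mul] at this
    rw [div_mul_cancel₀ _ h] at this
    linarith
  have h2 : v 2 = 0 := by
    by_contra h
    have := (hcon (-(x 2 + 1) / v 2)).2.1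
    simp only [Pi.add_apply, Pi.smul_apply, smul_eq_mul] at this
    rw [div_mul_cancel₀ _ h] at this
    linarith
  have h1 : v 1 = 0 := by
    by_contra h
    have := (hcon ((x 0 * x 2 + 1 - x 1) / v 1)).2.2
    have hn := (hcon 0)
    simp only [zero_smul, add_zero] at hn
    have h5 : 0 ≤ x 0 * x 2 := mul_nonneg hn.1 hn.2.1
    simp only [Pi.add_apply, Pi.smul_apply, smul_eq_mul, h0, h2, mul_zero, add_zero] at this
    rw [div_mul_cancel₀ _ h] at this
    nlinarith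
  apply hv
  ext i
  fin_cases i
  · exact h0
  · exact h1
  · exact h2

/-- the Hilbert metric -/
noncomputable def dd (x y : Fin 3 → ℝ) : ℝ := (1/2) * Real.log (sInf {t : ℝ | t • y - x ∈ closure C}
                                        * sInf {t : ℝ | t • x - y ∈ closure C})

theorem sInf_bd {p q : Fin 3 → ℝ} (hp : p ∈ C) (hq : q ∈ C) {α : ℝ} (h : α • q - p ∈ K) :
    0 ≤ sInf {t : ℝ | t • q - p ∈ closure C} ∧ sInf {t : ℝ | t • q - p ∈ closure C} ≤ α := by
  rw [closure_C]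
  have hb : ∀ t ∈ {t : ℝ | t • q - p ∈ K}, 0 ≤ t := by
    intro t ht
    have h1 : 0 ≤ t * q 0 - p 0 := by
      have := ht.1
      simpa using this
    by_contra hneg
    push Not at hneg
    have := mul_neg_of_neg_of_pos hneg hq.1
    linarith [hp.1]
  exact ⟨le_csInf ⟨α, h⟩ hb, csInf_le ⟨0, hb⟩ h⟩

theorem dd_le {p q : Fin 3 → ℝ} (hp : p ∈ C) (hq : q ∈ C) {α β : ℝ} (h1 : α • q - p ∈ K)
    (h2 : β • p - q ∈ K) (h : 1 ≤ α * β) : dd p q ≤ 1 / 2 * Real.log (α * β) := by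
  obtain ⟨a1, a2⟩ := sInf_bd hp hq h1
  obtain ⟨b1, b2⟩ := sInf_bd hq hp h2
  unfold dd
  apply mul_le_mul_of_nonneg_left _ (by norm_num)
  rcases (mul_nonneg a1 b1).lt_or_eq with h3 | h3
  · apply Real.log_le_log h3
    exact mul_le_mul a2 b2 b1 (a1.trans a2)
  · rw [← h3, Real.log_zero]
    exact Real.log_nonneg h

/-- real part -/
noncomputable def xx (p : Fin 3 → ℝ) : ℝ := -(p 1) / p 0
/-- imaginary part -/
noncomputable def yy (p : Fin 3 → ℝ) : ℝ := Real.sqrt (p 0 * p 2 - p 1 ^ 2) / p 0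

theorem yy_pos {p : Fin 3 → ℝ} (hp : p ∈ C) : 0 < yy p := by
  obtain ⟨h0, h1⟩ := hp
  exact div_pos (Real.sqrt_pos.2 (by linarith)) h0

theorem p_one {p : Fin 3 → ℝ} (hp : p ∈ C) : p 1 = -(p 0 * xx p) := by
  have h0 := hp.1.ne'
  unfold xx
  field_simp

theorem p_two {p : Fin 3 → ℝ} (hp : p ∈ C) : p 2 = p 0 * (xx p ^ 2 + yy p ^ 2) := by
  have h0 := hp.1.ne'
  have h1 : 0 ≤ p 0 * p 2 - p 1 ^ 2 := by linarith [hp.2]
  unfold xx yy
  rw [div_pow, div_pow, Real.sq_sqrt h1]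
  field_simp
  ring

theorem half_mem {p q : Fin 3 → ℝ} (hp : p ∈ C) (hq : q ∈ C) {τ : ℝ} (ht : 0 < τ) (ht1 : τ ≤ 1)
    (h : (xx p - xx q) ^ 2 + (yy p - yy q) ^ 2 ≤ τ ^ 2 * (yy p * yy q)) :
    ((1 + 2 * τ) * (p 0 * yy p) / (q 0 * yy q)) • q - p ∈ K := by
  have hyp := yy_pos hp
  have hyq := yy_pos hq
  have hp0 := hp.1
  have hq0 := hq.1
  set x := xx p
  set x' := xx q
  set y := yy p
  set y' := yy q
  -- main inequalities
  have k0 : 0 < (1 + 2 * τ) * y - y' := by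
    by_contra hneg
    push Not at hneg
    have e1 : 2 * τ * y ≤ y' - y := by linarith
    have e2 : (y - y') ^ 2 ≤ τ ^ 2 * (y * y') := by nlinarith [sq_nonneg (x - x')]
    have e3 : 0 < y' - y := by have := mul_pos ht hyp; linarith
    have e4 : 2 * τ * y * (y' - y) ≤ (y - y') ^ 2 := by nlinarith
    have e5 : 2 * τ * y * (y' - y) ≤ τ ^ 2 * (y * y') := e4.trans e2
    have e6 : τ * y * (2 * (y' - y)) ≤ τ * y * (τ * y') := by linarith
    have e7 : 2 * (y' - y) ≤ τ * y' := le_of_mul_le_mul_left e6 (by positivity)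
    have e8 : τ * y' = τ * y + τ * (y' - y) := by ring
    have e9 : τ * (y' - y) ≤ y' - y := by nlinarith
    have := mul_pos ht hyp
    linarith
  set T := 1 + 2 * τ with hT
  have k1 : (y' * x - T * y * x') ^ 2 ≤
      (T * y - y') * (T * y * (x' ^ 2 + y' ^ 2) - y' * (x ^ 2 + y ^ 2)) := by
    have e1 : (T * y - y') * (T * y * (x' ^ 2 + y' ^ 2) - y' * (x ^ 2 + y ^ 2)) -
        (y' * x - T * y * x') ^ 2 =
        y * y' * ((T - 1) ^ 2 * (y * y') - T * ((x - x') ^ 2 + (y - y') ^ 2)) := by ring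
    have e2 : 0 ≤ (T - 1) ^ 2 * (y * y') - T * ((x - x') ^ 2 + (y - y') ^ 2) := by
      have e3 : T * ((x - x') ^ 2 + (y - y') ^ 2) ≤ T * (τ ^ 2 * (y * y')) := by
        apply mul_le_mul_of_nonneg_left h; linarith
      have e4 : (T - 1) ^ 2 * (y * y') - T * (τ ^ 2 * (y * y')) =
        τ ^ 2 * (y * y') * (3 - 2 * τ) := by rw [hT]; ring
      have e5 : 0 ≤ τ ^ 2 * (y * y') * (3 - 2 * τ) := by
        have : 0 ≤ 3 - 2 * τ := by linarith
        positivity
      linarith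
    have e3 : 0 ≤ y * y' * ((T - 1) ^ 2 * (y * y') - T * ((x - x') ^ 2 + (y - y') ^ 2)) :=
      mul_nonneg (by positivity) e2
    linarith
  have k2 : 0 ≤ T * y * (x' ^ 2 + y' ^ 2) - y' * (x ^ 2 + y ^ 2) := by
    by_contra hneg
    push Not at hneg
    have := mul_neg_of_pos_of_neg k0 hneg
    nlinarith [sq_nonneg (y' * x - T * y * x')]
  -- scaling
  have s0 : (T * (p 0 * y) / (q 0 * y')) * q 0 - p 0 = p 0 / y' * (T * y - y') := by
    field_simp
  have s1 : (T * (p 0 * y) / (q 0 * y')) * q 1 - p 1 = p 0 / y' * (y' * x - T * y * x') := by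
    have e1 : p 1 = -(p 0 * x) := p_one hp
    have e2 : q 1 = -(q 0 * x') := p_one hq
    rw [e1, e2]
    field_simp
    ring
  have s2 : (T * (p 0 * y) / (q 0 * y')) * q 2 - p 2 =
      p 0 / y' * (T * y * (x' ^ 2 + y' ^ 2) - y' * (x ^ 2 + y ^ 2)) := by
    have e1 : p 2 = p 0 * (x ^ 2 + y ^ 2) := p_two hp
    have e2 : q 2 = q 0 * (x' ^ 2 + y' ^ 2) := p_two hq
    rw [e1, e2]
    field_simp
  have hc : 0 < p 0 / y' := by positivity
  refine ⟨?_, ?_, ?_⟩
  · simp only [Pi.sub_apply, Pi.smul_apply, smul_eq_mul]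
    rw [s0]; exact mul_nonneg hc.le k0.le
  · simp only [Pi.sub_apply, Pi.smul_apply, smul_eq_mul]
    rw [s2]; exact mul_nonneg hc.le k2
  · simp only [Pi.sub_apply, Pi.smul_apply, smul_eq_mul]
    rw [s0, s1, s2]
    have : (p 0 / y' * (y' * x - T * y * x')) ^ 2 = (p 0 / y') ^ 2 * (y' * x - T * y * x') ^ 2 := by
      ring
    rw [this]
    have e : p 0 / y' * (T * y - y') * (p 0 / y' * (T * y * (x' ^ 2 + y' ^ 2) -
      y' * (x ^ 2 + y ^ 2))) = (p 0 / y') ^ 2 * ((T * y - y') * (T * y * (x' ^ 2 + y' ^ 2) -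
      y' * (x ^ 2 + y ^ 2))) := by ring
    rw [e]
    exact mul_le_mul_of_nonneg_left k1 (by positivity)

theorem dd_le_tau {p q : Fin 3 → ℝ} (hp : p ∈ C) (hq : q ∈ C) {τ : ℝ} (ht : 0 < τ) (ht1 : τ ≤ 1)
    (h : (xx p - xx q) ^ 2 + (yy p - yy q) ^ 2 ≤ τ ^ 2 * (yy p * yy q)) :
    dd p q ≤ 2 * τ := by
  have hyp := yy_pos hp
  have hyq := yy_pos hq
  have hp0 := hp.1
  have hq0 := hq.1
  have h1 := half_mem hp hq ht ht1 h
  have h2 := half_mem hq hp ht ht1 (by
    have e1 : (xx q - xx p) ^ 2 + (yy q - yy p) ^ 2 =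
      (xx p - xx q) ^ 2 + (yy p - yy q) ^ 2 := by ring
    rw [e1, mul_comm (yy q)]; exact h)
  have e : ((1 + 2 * τ) * (p 0 * yy p) / (q 0 * yy q)) *
      ((1 + 2 * τ) * (q 0 * yy q) / (p 0 * yy p)) = (1 + 2 * τ) ^ 2 := by
    field_simp
  have h3 := dd_le hp hq h1 h2 (by rw [e]; nlinarith)
  rw [e, Real.log_pow] at h3
  have h4 := Real.log_le_sub_one_of_pos (show 0 < 1 + 2 * τ by linarith)
  push_cast at h3
  linarith

/-- diameter -/
noncomputable def diam (U : Set (Fin 3 → ℝ)) : ENNReal := ⨆ x ∈ U, ⨆ y ∈ U, ENNReal.ofReal (dd x y)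

theorem diam_empty : diam ∅ = 0 := by simp [diam]

/-- the cells -/
def cell (N : ℕ) (m i j : ℕ) : Set (Fin 3 → ℝ) :=
  {p | p ∈ C ∧ i ≤ N ∧ j ≤ N ∧ -(3 / 2) + 3 * (i : ℝ) / N ≤ xx p ∧
    xx p ≤ -(3 / 2) + 3 * ((i : ℝ) + 1) / N ∧
    ((m : ℝ) + 1) / 2 + j / (2 * N) ≤ yy p ∧ yy p ≤ ((m : ℝ) + 1) / 2 + ((j : ℝ) + 1) / (2 * N)}

/-- bound for the diameter of a cell -/
noncomputable def bd (N m : ℕ) : ℝ := 14 / (N * ((m : ℝ) + 1))

theorem diam_cell {N : ℕ} (hN : 7 ≤ N) (m i j : ℕ) :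
    diam (cell N m i j) ≤ if i ≤ N ∧ j ≤ N then ENNReal.ofReal (bd N m) else 0 := by
  have hN0 : (0 : ℝ) < N := by
    have : 0 < N := by omega
    exact_mod_cast this
  have hN7 : (7 : ℝ) ≤ N := by exact_mod_cast hN
  split_ifs with hij
  · unfold diam
    apply iSup₂_le
    intro p hp
    apply iSup₂_le
    intro q hq
    apply ENNReal.ofReal_le_ofReal
    obtain ⟨hpC, -, -, a1, a2, a3, a4⟩ := hp
    obtain ⟨hqC, -, -, b1, b2, b3, b4⟩ := hq
    have hm : (0 : ℝ) ≤ m := Nat.cast_nonneg m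
    have hτ : dd p q ≤ 2 * (7 / (N * ((m : ℝ) + 1))) := by
      apply dd_le_tau hpC hqC
      · positivity
      · rw [div_le_one (by positivity)]
        nlinarith
      · have c1 : (xx p - xx q) ^ 2 ≤ (3 / N) ^ 2 := by
          have e : 3 * ((i : ℝ) + 1) / N = 3 * (i : ℝ) / N + 3 / N := by ring
          rw [e] at a2 b2
          apply sq_le_sq'
          · linarith
          · linarith
        have c2 : (yy p - yy q) ^ 2 ≤ (1 / (2 * N)) ^ 2 := by
          have e : ((j : ℝ) + 1) / (2 * N) = (j : ℝ) / (2 * N) + 1 / (2 * N) := by ring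
          rw [e] at a4 b4
          apply sq_le_sq'
          · linarith
          · linarith
        have c3 : ((m : ℝ) + 1) / 2 ≤ yy p := by
          have : 0 ≤ (j : ℝ) / (2 * N) := by positivity
          linarith
        have c4 : ((m : ℝ) + 1) / 2 ≤ yy q := by
          have : 0 ≤ (j : ℝ) / (2 * N) := by positivity
          linarith
        have c5 : ((m : ℝ) + 1) / 2 * (((m : ℝ) + 1) / 2) ≤ yy p * yy q := by
          apply mul_le_mul c3 c4 (by positivity)
          have := yy_pos hpC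
          exact this.le
        have c6 : (7 / (N * ((m : ℝ) + 1))) ^ 2 * (((m : ℝ) + 1) / 2 * (((m : ℝ) + 1) / 2)) ≤
            (7 / (N * ((m : ℝ) + 1))) ^ 2 * (yy p * yy q) :=
          mul_le_mul_of_nonneg_left c5 (by positivity)
        have c7 : (7 / (N * ((m : ℝ) + 1))) ^ 2 * (((m : ℝ) + 1) / 2 * (((m : ℝ) + 1) / 2)) =
          49 / 4 * (1 / N ^ 2) := by
          field_simp
          try ring
        have c8 : (3 / (N : ℝ)) ^ 2 + (1 / (2 * N)) ^ 2 = 37 / 4 * (1 / N ^ 2) := by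
          field_simp
          ring
        have c9 : 0 < 1 / (N : ℝ) ^ 2 := by positivity
        linarith
    refine hτ.trans (le_of_eq ?_)
    unfold bd
    ring
  · have : cell N m i j = ∅ := by
      ext p
      simp only [cell, Set.mem_empty_iff_false, iff_false]
      rintro ⟨-, h1, h2, -⟩
      exact hij ⟨h1, h2⟩
    rw [this, diam_empty]

theorem F_cover {N : ℕ} (hN : 7 ≤ N) (p : Fin 3 → ℝ) (hp : p ∈ F) :
    ∃ m i j, p ∈ cell N m i j := by
  have hN0 : (0 : ℝ) < N := by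
    have : 0 < N := by omega
    exact_mod_cast this
  obtain ⟨hpC, h1, h2⟩ := hp
  have hp0 := hpC.1
  have hx : |xx p| ≤ 3 / 2 := by
    unfold xx
    rw [abs_div, abs_neg, abs_of_pos hp0, div_le_iff₀ hp0]
    exact h1
  have hy : 1 / 2 ≤ yy p := by
    unfold yy
    rw [le_div_iff₀ hp0]
    apply Real.le_sqrt_of_sq_le
    linarith
  rw [abs_le] at hx
  set x := xx p with hxd
  set y := yy p with hyd
  -- index of the strip
  set M := ⌊2 * y⌋₊ with hM
  have hM1 : 1 ≤ M := by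
    rw [hM]; apply Nat.le_floor; push_cast; linarith
  have hMle : (M : ℝ) ≤ 2 * y := Nat.floor_le (by linarith)
  have hMlt : 2 * y < M + 1 := Nat.lt_floor_add_one _
  have hMc : (((M - 1 : ℕ) : ℝ) + 1) = M := by
    have : (M - 1) + 1 = M := by omega
    exact_mod_cast this
  -- index in x
  set i := ⌊(x + 3 / 2) * N / 3⌋₊ with hi
  have hxi : 0 ≤ (x + 3 / 2) * N / 3 := by
    have : 0 ≤ x + 3 / 2 := by linarith
    positivity
  have hile : (i : ℝ) ≤ (x + 3 / 2) * N / 3 := Nat.floor_le hxi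
  have hilt : (x + 3 / 2) * N / 3 < i + 1 := Nat.lt_floor_add_one _
  -- index in y
  set j := ⌊(y - M / 2) * (2 * N)⌋₊ with hj
  have hyj : 0 ≤ (y - M / 2) * (2 * N) := by
    have : 0 ≤ y - M / 2 := by linarith
    positivity
  have hjle : (j : ℝ) ≤ (y - M / 2) * (2 * N) := Nat.floor_le hyj
  have hjlt : (y - M / 2) * (2 * N) < j + 1 := Nat.lt_floor_add_one _
  refine ⟨M - 1, i, j, hpC, ?_, ?_, ?_, ?_, ?_, ?_⟩
  · have : (i : ℝ) ≤ N := by
      refine hile.trans ?_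
      have : (x + 3 / 2) * N ≤ 3 * N := by
        apply mul_le_mul_of_nonneg_right _ hN0.le; linarith
      linarith
    exact_mod_cast this
  · have : (j : ℝ) ≤ N := by
      refine hjle.trans ?_
      have : (y - M / 2) * (2 * N) ≤ 1 / 2 * (2 * N) := by
        apply mul_le_mul_of_nonneg_right _ (by positivity); linarith
      linarith
    exact_mod_cast this
  · have : 3 * (i : ℝ) / N ≤ x + 3 / 2 := by
      rw [div_le_iff₀ hN0]; linarith
    linarith
  · have : x + 3 / 2 ≤ 3 * ((i : ℝ) + 1) / N := by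
      rw [le_div_iff₀ hN0]; linarith
    linarith
  · rw [hMc]
    have : (j : ℝ) / (2 * N) ≤ y - M / 2 := by
      rw [div_le_iff₀ (by positivity)]; linarith
    linarith
  · rw [hMc]
    have : y - M / 2 ≤ ((j : ℝ) + 1) / (2 * N) := by
      rw [le_div_iff₀ (by positivity)]; linarith
    linarith

/-- final bound -/
noncomputable def BB : ENNReal := ∑' m : ℕ, ENNReal.ofReal (784 * (1 / ((m : ℝ) + 1) ^ 2))

theorem BB_lt : BB < ⊤ := by
  apply Summable.tsum_ofReal_lt_top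
  apply Summable.mul_left
  have h := (summable_nat_add_iff 1).2 (Real.summable_one_div_nat_pow.2 (one_lt_two))
  refine h.congr fun m => ?_
  push_cast
  rfl

theorem sum_cells {N : ℕ} (hN : 7 ≤ N) :
    ∑' m : ℕ, ∑' i : ℕ, ∑' j : ℕ, diam (cell N m i j) ^ 2 ≤ BB := by
  have hN0 : (0 : ℝ) < N := by
    have : 0 < N := by omega
    exact_mod_cast this
  have hN1 : (1 : ℝ) ≤ N := by
    have : 1 ≤ N := by omega
    exact_mod_cast this
  unfold BB
  apply ENNReal.tsum_le_tsum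
  intro m
  have h1 : ∀ i j, diam (cell N m i j) ^ 2 ≤
      if i ∈ Finset.range (N + 1) then (if j ∈ Finset.range (N + 1) then
        ENNReal.ofReal (bd N m) ^ 2 else 0) else 0 := by
    intro i j
    have := diam_cell hN m i j
    have h2 : diam (cell N m i j) ^ 2 ≤
      (if i ≤ N ∧ j ≤ N then ENNReal.ofReal (bd N m) else 0) ^ 2 := by gcongr
    refine h2.trans (le_of_eq ?_)
    simp only [Finset.mem_range, Nat.lt_succ_iff]
    by_cases hi : i ≤ N
    · by_cases hj : j ≤ N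
      · simp [hi, hj]
      · simp [hi, hj]
    · simp [hi]
  have h2 : ∑' i : ℕ, ∑' j : ℕ, diam (cell N m i j) ^ 2 ≤
      ∑' i : ℕ, ∑' j : ℕ, (if i ∈ Finset.range (N + 1) then (if j ∈ Finset.range (N + 1) then
        ENNReal.ofReal (bd N m) ^ 2 else 0) else 0) :=
    ENNReal.tsum_le_tsum fun i => ENNReal.tsum_le_tsum fun j => h1 i j
  refine h2.trans ?_
  have h3 : ∀ i : ℕ, ∑' j : ℕ, (if i ∈ Finset.range (N + 1) then
      (if j ∈ Finset.range (N + 1) then ENNReal.ofReal (bd N m) ^ 2 else 0) else 0) =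
      if i ∈ Finset.range (N + 1) then ((N + 1 : ℕ) : ENNReal) * ENNReal.ofReal (bd N m) ^ 2
        else 0 := by
    intro i
    split_ifs with hi
    · rw [tsum_eq_sum (s := Finset.range (N + 1)) (by
        intro j hj; rw [if_neg hj])]
      rw [Finset.sum_congr rfl (fun j hj => if_pos hj)]
      simp
    · simp
  simp_rw [h3]
  rw [tsum_eq_sum (s := Finset.range (N + 1)) (by
        intro j hj; rw [if_neg hj])]
  rw [Finset.sum_congr rfl (fun j hj => if_pos hj)]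
  rw [Finset.sum_const, Finset.card_range, nsmul_eq_mul, ← ENNReal.ofReal_natCast,
    ← ENNReal.ofReal_pow (by unfold bd; positivity), ← ENNReal.ofReal_mul (by positivity),
    ← ENNReal.ofReal_mul (by positivity)]
  apply ENNReal.ofReal_le_ofReal
  unfold bd
  have e : ((N + 1 : ℕ) : ℝ) * (((N + 1 : ℕ) : ℝ) * (14 / (N * ((m : ℝ) + 1))) ^ 2) =
      196 * (((N : ℝ) + 1) / N) ^ 2 * (1 / ((m : ℝ) + 1) ^ 2) := by
    push_cast
    field_simp
    ring
  rw [e]
  have h4 : (((N : ℝ) + 1) / N) ^ 2 ≤ 2 ^ 2 := by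
    apply pow_le_pow_left₀ (by positivity)
    rw [div_le_iff₀ hN0]; linarith
  have h5 : 0 < 1 / ((m : ℝ) + 1) ^ 2 := by positivity
  nlinarith

theorem HF_lt (H : Set (Fin 3 → ℝ) → ENNReal)
    (hH : ∀ F, H F = ⨆ (r : ℝ) (_ : 0 < r), ⨅ (U : ℕ → Set (Fin 3 → ℝ))
        (_ : F ⊆ ⋃ i, U i) (_ : ∀ i, U i ⊆ C ∧ diam (U i) ≤ ENNReal.ofReal r),
        ∑' i, diam (U i) ^ 2) : H F < ⊤ := by
  refine lt_of_le_of_lt ?_ BB_lt
  rw [hH]
  apply iSup₂_le
  intro r hr
  obtain ⟨N0, hN0⟩ := exists_nat_ge (14 / r)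
  set N := max 7 N0 with hNd
  have hN : 7 ≤ N := le_max_left _ _
  have hNr : 14 / r ≤ N := hN0.trans (by exact_mod_cast le_max_right _ _)
  have hNp : (0 : ℝ) < N := by
    have : 0 < N := by omega
    exact_mod_cast this
  set e : ℕ ≃ ℕ × ℕ × ℕ := (Denumerable.eqv (ℕ × ℕ × ℕ)).symm with he
  set V : ℕ × ℕ × ℕ → Set (Fin 3 → ℝ) := fun q => cell N q.1 q.2.1 q.2.2 with hV
  refine iInf_le_of_le (fun k => V (e k)) ?_
  refine iInf_le_of_le ?_ ?_
  · intro p hp
    obtain ⟨m, i, j, h⟩ := F_cover hN p hp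
    rw [Set.mem_iUnion]
    exact ⟨e.symm (m, i, j), by rw [Equiv.apply_symm_apply]; exact h⟩
  refine iInf_le_of_le ?_ ?_
  · intro k
    refine ⟨fun p hp => hp.1, ?_⟩
    refine (diam_cell hN _ _ _).trans ?_
    split_ifs
    · apply ENNReal.ofReal_le_ofReal
      unfold bd
      rw [div_le_iff₀ (by positivity)]
      rw [div_le_iff₀ hr] at hNr
      have hm : (1 : ℝ) ≤ ((e k).1 : ℝ) + 1 := by
        have : (0 : ℝ) ≤ ((e k).1 : ℝ) := Nat.cast_nonneg _
        linarith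
      have h1 : (N : ℝ) * r ≤ (N : ℝ) * r * (((e k).1 : ℝ) + 1) := le_mul_of_one_le_right (by positivity) hm
      calc (14 : ℝ) ≤ N * r := hNr
        _ ≤ (N : ℝ) * r * (((e k).1 : ℝ) + 1) := h1
        _ = r * (N * (((e k).1 : ℝ) + 1)) := by ring
    · exact bot_le
  · have h1 : ∑' k, diam (V (e k)) ^ 2 = ∑' q : ℕ × ℕ × ℕ, diam (V q) ^ 2 :=
      e.tsum_eq (fun q => diam (V q) ^ 2)
    rw [h1, ENNReal.tsum_prod']
    have h2 : ∀ m : ℕ, ∑' b : ℕ × ℕ, diam (V (m, b)) ^ 2 =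
        ∑' i : ℕ, ∑' j : ℕ, diam (cell N m i j) ^ 2 := by
      intro m
      rw [ENNReal.tsum_prod']
    simp_rw [h2]
    exact sum_cells hN

end Pool.Agent.Q155.Cox
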